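import Mathlib

/-!
# The `σ`-Helly number of the aligned sum of two aligned spaces
-/

set_option autoImplicit false

namespace Pool.Agent.Results.MP_65fb70_co.SumBounds

open Set

/-- `(X, C)` is an aligned space. -/
structure IsAligned {U : Type} (X : Set U) (C : Set (Set U)) : Prop where
  sub : ∀ A ∈ C, A ⊆ X
  empty : ∅ ∈ C
  whole : X ∈ C
  inter : ∀ F ⊆ C, F.Nonempty → ⋂₀ F ∈ C
  chain : ∀ F ⊆ C, F.Nonempty → IsChain (· ⊆ ·) F → ⋃₀ F ∈ C

/-- the hull of `S` -/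
def hull {U : Type} (C : Set (Set U)) (S : Set U) : Set U := ⋂₀ {A | A ∈ C ∧ S ⊆ A}

/-- the `σ`-core of `S`: the intersection of the hulls of the sets `S \ M`, `M ⊆ S`, `|M| ≤ σ` -/
def core {U : Type} (C : Set (Set U)) (σ : ℕ) (S : Set U) : Set U :=
  {x | ∀ M ⊆ S, M.encard ≤ σ → x ∈ hull C (S \ M)}

/-- the `σ`-Helly number of `(X, C)` -/
noncomputable def helly {U : Type} (X : Set U) (C : Set (Set U)) (σ : ℕ) : ℕ∞ :=
  sInf {k | ∃ m : ℕ, k = m ∧ ∀ S ⊆ X, (m : ℕ∞) + 1 ≤ S.encard → (core C σ S).Nonempty}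

/-- the convex sets of the aligned sum of `(X₁, C₁)` and `(X₂, C₂)`, a space on `X₁ ∪ X₂` -/
def alSum {U : Type} (X₁ : Set U) (C₁ : Set (Set U)) (X₂ : Set U) (C₂ : Set (Set U)) :
    Set (Set U) :=
  {D | ∃ A ∈ C₁, ∃ B ∈ C₂, D = (A \ X₂) ∪ (B \ X₁) ∪ (A ∩ B)}

/-- there are aligned spaces with `σ`-Helly numbers `a` and `b` whose aligned sum has the
`σ`-Helly number `c` -/
def Occurs (σ : ℕ) (a b c : ℕ∞) : Prop :=
  ∃ (U : Type) (X₁ X₂ : Set U) (C₁ C₂ : Set (Set U)), IsAligned X₁ C₁ ∧ IsAligned X₂ C₂ ∧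
    helly X₁ C₁ σ = a ∧ helly X₂ C₂ σ = b ∧ helly (X₁ ∪ X₂) (alSum X₁ C₁ X₂ C₂) σ = c

section basic
variable {U : Type} {X : Set U} {C : Set (Set U)} {σ : ℕ}

theorem mem_hull {S : Set U} {x : U} : x ∈ hull C S ↔ ∀ A ∈ C, S ⊆ A → x ∈ A := by
  unfold hull
  rw [mem_sInter]
  exact ⟨fun h A hA hS => h A ⟨hA, hS⟩, fun h A hA => h A hA.1 hA.2⟩

theorem not_add_one_le {x : ℕ∞} {m : ℕ} (h : ¬ (m : ℕ∞) + 1 ≤ x) : x ≤ m := by
  by_contra hc
  exact h (Order.add_one_le_of_lt (not_le.1 hc))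

theorem le_helly {S : Set U} (hS : S ⊆ X) (h : core C σ S = ∅) : S.encard ≤ helly X C σ := by
  apply le_sInf
  rintro k ⟨m, rfl, hm⟩
  apply not_add_one_le
  intro hc
  have := hm S hS hc
  rw [h] at this
  exact not_nonempty_empty this

theorem helly_le {v : ℕ∞} (h : ∀ S ⊆ X, core C σ S = ∅ → S.encard ≤ v) : helly X C σ ≤ v := by
  rcases eq_or_ne v ⊤ with rfl | hv
  · exact le_top
  · obtain ⟨m, rfl⟩ := ENat.ne_top_iff_exists.1 hv
    apply sInf_le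
    refine ⟨m, rfl, fun S hS hm => ?_⟩
    by_contra hc
    rw [not_nonempty_iff_eq_empty] at hc
    have h1 := h S hS hc
    have h2 : (m : ℕ∞) + 1 ≤ m := hm.trans h1
    exact absurd h2 (not_le.2 (by exact_mod_cast Nat.lt_succ_self m))

theorem helly_eq {v : ℕ∞} (h1 : ∀ S ⊆ X, core C σ S = ∅ → S.encard ≤ v)
    (h2 : ∃ S ⊆ X, core C σ S = ∅ ∧ v ≤ S.encard) : helly X C σ = v := by
  apply le_antisymm (helly_le h1)
  obtain ⟨S, hS, hc, hv⟩ := h2
  exact hv.trans (le_helly hS hc)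

theorem exists_of_lt {m : ℕ} (h : (m : ℕ∞) < helly X C σ) :
    ∃ S ⊆ X, (m : ℕ∞) + 1 ≤ S.encard ∧ core C σ S = ∅ := by
  by_contra hc
  push Not at hc
  have : helly X C σ ≤ m := sInf_le ⟨m, rfl, fun S hS hm => (hc S hS hm)⟩
  exact absurd this (not_le.2 h)

theorem core_small (h0 : ∅ ∈ C) {S : Set U} (hS : S.encard ≤ σ) : core C σ S = ∅ := by
  rw [eq_empty_iff_forall_notMem]
  intro x hx
  have h1 := hx S Subset.rfl hS
  rw [diff_self, mem_hull] at h1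
  exact h1 ∅ h0 Subset.rfl

end basic

section sums
variable {U : Type} {X₁ X₂ : Set U} {C₁ C₂ : Set (Set U)} {σ : ℕ}

theorem alSum_comm : alSum X₁ C₁ X₂ C₂ = alSum X₂ C₂ X₁ C₁ := by
  ext D
  constructor
  · rintro ⟨A, hA, B, hB, rfl⟩
    refine ⟨B, hB, A, hA, ?_⟩
    rw [union_comm (A \ X₂), inter_comm]
  · rintro ⟨A, hA, B, hB, rfl⟩
    refine ⟨B, hB, A, hA, ?_⟩
    rw [union_comm (A \ X₁), inter_comm]

theorem core_left (h₂ : IsAligned X₂ C₂) {S : Set U} (hS : S ⊆ X₁ ∪ X₂) {x : U} (hx : x ∈ X₁)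
    (h : x ∈ core (alSum X₁ C₁ X₂ C₂) σ S) : x ∈ core C₁ σ (S ∩ X₁) := by
  intro M hM hMσ
  rw [mem_hull]
  intro A hA hSA
  have h1 := h M (hM.trans inter_subset_left) hMσ
  rw [mem_hull] at h1
  have h2 := h1 ((A \ X₂) ∪ (X₂ \ X₁) ∪ (A ∩ X₂)) ⟨A, hA, X₂, h₂.whole, rfl⟩ (by
    intro s hs
    by_cases hs1 : s ∈ X₁
    · have hsA : s ∈ A := hSA ⟨⟨hs.1, hs1⟩, hs.2⟩
      by_cases hs2 : s ∈ X₂
      · exact Or.inr ⟨hsA, hs2⟩
      · exact Or.inl (Or.inl ⟨hsA, hs2⟩)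
    · have hs2 : s ∈ X₂ := (hS hs.1).resolve_left hs1
      exact Or.inl (Or.inr ⟨hs2, hs1⟩))
  rcases h2 with (h2 | h2) | h2
  · exact h2.1
  · exact absurd hx h2.2
  · exact h2.1

theorem core_right (h₁ : IsAligned X₁ C₁) {S : Set U} (hS : S ⊆ X₁ ∪ X₂) {x : U} (hx : x ∈ X₂)
    (h : x ∈ core (alSum X₁ C₁ X₂ C₂) σ S) : x ∈ core C₂ σ (S ∩ X₂) := by
  rw [alSum_comm] at h
  exact core_left h₁ (by rwa [union_comm] at hS) hx h

theorem core_sub (h₁ : IsAligned X₁ C₁) (h₂ : IsAligned X₂ C₂) {S : Set U}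
    (hS : S ⊆ X₁ ∪ X₂) : core (alSum X₁ C₁ X₂ C₂) σ S ⊆ X₁ ∪ X₂ := by
  intro x hx
  have h1 := hx ∅ (empty_subset _) (by simp)
  rw [mem_hull] at h1
  have h2 := h1 ((X₁ \ X₂) ∪ (X₂ \ X₁) ∪ (X₁ ∩ X₂)) ⟨X₁, h₁.whole, X₂, h₂.whole, rfl⟩ (by
    intro s hs
    rcases hS hs.1 with h | h
    · by_cases h' : s ∈ X₂
      · exact Or.inr ⟨h, h'⟩
      · exact Or.inl (Or.inl ⟨h, h'⟩)
    · by_cases h' : s ∈ X₁
      · exact Or.inr ⟨h', h⟩
      · exact Or.inl (Or.inr ⟨h, h'⟩))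
  rcases h2 with (h2 | h2) | h2
  · exact Or.inl h2.1
  · exact Or.inr h2.1
  · exact Or.inl h2.1

theorem core_sum_empty (h₁ : IsAligned X₁ C₁) (h₂ : IsAligned X₂ C₂) {S : Set U}
    (hS : S ⊆ X₁ ∪ X₂) (e₁ : core C₁ σ (S ∩ X₁) = ∅) (e₂ : core C₂ σ (S ∩ X₂) = ∅) :
    core (alSum X₁ C₁ X₂ C₂) σ S = ∅ := by
  rw [eq_empty_iff_forall_notMem]
  intro x hx
  rcases core_sub h₁ h₂ hS hx with h | h
  · have := core_left h₂ hS h hx
    rw [e₁] at this
    exact this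
  · have := core_right h₁ hS h hx
    rw [e₂] at this
    exact this

theorem core_sum_left {S : Set U} {x : U} (hx : x ∉ X₂)
    (h : x ∈ core C₁ σ (S ∩ X₁)) : x ∈ core (alSum X₁ C₁ X₂ C₂) σ S := by
  intro M hM hMσ
  rw [mem_hull]
  rintro D ⟨A, hA, B, hB, rfl⟩ hSD
  have h1 := h (M ∩ X₁) (inter_subset_inter_left _ hM) ((encard_le_encard inter_subset_left).trans hMσ)
  rw [mem_hull] at h1
  have h2 := h1 A hA (by
    rintro s ⟨hs, hs'⟩
    have hsM : s ∉ M := fun hc => hs' ⟨hc, hs.2⟩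
    rcases hSD ⟨hs.1, hsM⟩ with (h3 | h3) | h3
    · exact h3.1
    · exact absurd hs.2 h3.2
    · exact h3.1)
  exact Or.inl (Or.inl ⟨h2, hx⟩)

theorem core_sum_right {S : Set U} {x : U} (hx : x ∉ X₁)
    (h : x ∈ core C₂ σ (S ∩ X₂)) : x ∈ core (alSum X₁ C₁ X₂ C₂) σ S := by
  rw [alSum_comm]
  exact core_sum_left hx h

theorem helly_comm : helly (X₁ ∪ X₂) (alSum X₁ C₁ X₂ C₂) σ =
    helly (X₂ ∪ X₁) (alSum X₂ C₂ X₁ C₁) σ := by
  rw [alSum_comm, union_comm]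

theorem small_encard (h₁ : IsAligned X₁ C₁) (h : helly X₁ C₁ σ < σ) : X₁.encard < σ := by
  by_contra hc
  obtain ⟨S, hS, hSσ⟩ := exists_subset_encard_eq (not_lt.1 hc)
  have := le_helly hS (core_small h₁.empty (le_of_eq hSσ))
  rw [hSσ] at this
  exact absurd this (not_le.2 h)

theorem small_le (h₁ : IsAligned X₁ C₁) (h : X₁.encard < σ) : X₁.encard ≤ helly X₁ C₁ σ :=
  le_helly Subset.rfl (core_small h₁.empty h.le)

theorem low_small (h₁ : IsAligned X₁ C₁) (h₂ : IsAligned X₂ C₂) (h : helly X₁ C₁ σ < σ) :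
    helly X₂ C₂ σ ≤ helly (X₁ ∪ X₂) (alSum X₁ C₁ X₂ C₂) σ := by
  have h3 := small_encard h₁ h
  apply helly_le
  intro S hS hc
  apply le_helly (hS.trans subset_union_right)
  apply core_sum_empty h₁ h₂ (hS.trans subset_union_right)
  · exact core_small h₁.empty ((encard_le_encard inter_subset_right).trans h3.le)
  · rw [inter_eq_left.2 hS]
    exact hc

theorem low_nested (h₁ : IsAligned X₁ C₁) (h₂ : IsAligned X₂ C₂) (h : X₂ ⊆ X₁) :
    helly X₁ C₁ σ ≤ helly (X₁ ∪ X₂) (alSum X₁ C₁ X₂ C₂) σ := by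
  apply helly_le
  intro S hS hc
  apply le_helly (hS.trans subset_union_left)
  rw [eq_empty_iff_forall_notMem]
  intro x hx
  have h4 : x ∈ X₁ := by
    rcases core_sub h₁ h₂ (hS.trans subset_union_left) hx with h5 | h5
    · exact h5
    · exact h h5
  have := core_left h₂ (hS.trans subset_union_left) h4 hx
  rw [inter_eq_left.2 hS, hc] at this
  exact this

theorem low_main (hσ : 1 ≤ σ) (h₁ : IsAligned X₁ C₁) (h₂ : IsAligned X₂ C₂) :
    min (min (helly X₁ C₁ σ) (helly X₂ C₂ σ)) ((σ : ℕ∞) + 1) ≤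
      helly (X₁ ∪ X₂) (alSum X₁ C₁ X₂ C₂) σ := by
  by_contra hc
  rw [not_le] at hc
  have hl1 : helly (X₁ ∪ X₂) (alSum X₁ C₁ X₂ C₂) σ < helly X₁ C₁ σ :=
    hc.trans_le ((min_le_left _ _).trans (min_le_left _ _))
  have hl2 : helly (X₁ ∪ X₂) (alSum X₁ C₁ X₂ C₂) σ < helly X₂ C₂ σ :=
    hc.trans_le ((min_le_left _ _).trans (min_le_right _ _))
  have hl3 : helly (X₁ ∪ X₂) (alSum X₁ C₁ X₂ C₂) σ < (σ : ℕ∞) + 1 :=
    hc.trans_le (min_le_right _ _)
  -- both differences are not empty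
  obtain ⟨p, hp2, hp1⟩ : ∃ p ∈ X₂, p ∉ X₁ := by
    by_contra hcon
    push Not at hcon
    exact absurd (low_nested (σ := σ) h₁ h₂ hcon) (not_le.2 hl1)
  obtain ⟨q, hq1, hq2⟩ : ∃ q ∈ X₁, q ∉ X₂ := by
    by_contra hcon
    push Not at hcon
    have h5 := low_nested (σ := σ) h₂ h₁ hcon
    rw [helly_comm] at h5
    exact absurd h5 (not_le.2 hl2)
  obtain ⟨m, hm⟩ : ∃ m : ℕ, (m : ℕ∞) = helly (X₁ ∪ X₂) (alSum X₁ C₁ X₂ C₂) σ :=
    ENat.ne_top_iff_exists.1 (ne_top_of_lt hl1)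
  rw [← hm] at hl1 hl3
  have hmσ : m ≤ σ := by
    have : m < σ + 1 := by exact_mod_cast hl3
    omega
  obtain ⟨S1, hS1, hS1m, -⟩ := exists_of_lt hl1
  rcases Nat.lt_or_ge m σ with hlt | hge
  · obtain ⟨S, hSS, hSm⟩ := exists_subset_encard_eq hS1m
    have hSX : S ⊆ X₁ ∪ X₂ := (hSS.trans hS1).trans subset_union_left
    have hSσ : S.encard ≤ σ := by
      rw [hSm]
      exact_mod_cast hlt
    have h6 := le_helly hSX (core_sum_empty h₁ h₂ hSX
      (core_small h₁.empty ((encard_le_encard inter_subset_left).trans hSσ))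
      (core_small h₂.empty ((encard_le_encard inter_subset_left).trans hSσ)))
    rw [← hm, hSm] at h6
    exact absurd h6 (not_le.2 (by exact_mod_cast Nat.lt_succ_self m))
  · have hmeq : m = σ := le_antisymm hmσ hge
    subst hmeq
    have hpq : p ≠ q := by
      rintro rfl
      exact hp1 hq1
    obtain ⟨S, hpqS, hSX, hSm⟩ := exists_superset_subset_encard_eq
      (s := {p, q}) (t := X₁ ∪ X₂) (k := (m : ℕ∞) + 1)
      (by
        rintro z (rfl | rfl)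
        · exact Or.inr hp2
        · exact Or.inl hq1)
      (by
        rw [encard_pair hpq]
        exact_mod_cast Nat.succ_le_succ hσ)
      (hS1m.trans (encard_le_encard (hS1.trans subset_union_left)))
    have key : ∀ z ∈ S, ∀ Y : Set U, z ∉ Y → (S ∩ Y).encard ≤ m := by
      intro z hz Y hzY
      have h7 := encard_diff_singleton_add_one hz
      rw [hSm] at h7
      have h8 : (S \ {z}).encard = m := by
        exact ENat.add_left_injective_of_ne_top ENat.one_ne_top h7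
      rw [← h8]
      apply encard_le_encard
      intro y hy
      refine ⟨hy.1, fun hc => hzY ?_⟩
      rw [← (mem_singleton_iff.1 hc)]
      exact hy.2
    have h6 := le_helly hSX (core_sum_empty (σ := m) h₁ h₂ hSX
      (core_small h₁.empty (key p (hpqS (by simp)) X₁ hp1))
      (core_small h₂.empty (key q (hpqS (by simp)) X₂ hq2)))
    rw [← hm, hSm] at h6
    exact absurd h6 (not_le.2 (by exact_mod_cast Nat.lt_succ_self m))

theorem zero_case (hσ : 1 ≤ σ) (h₁ : IsAligned X₁ C₁) (h₂ : IsAligned X₂ C₂)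
    (h : helly X₁ C₁ σ = 0) :
    helly (X₁ ∪ X₂) (alSum X₁ C₁ X₂ C₂) σ = helly X₂ C₂ σ := by
  have h3 : helly X₁ C₁ σ < σ := by
    rw [h]
    exact_mod_cast hσ
  have h4 := small_le h₁ (small_encard h₁ h3)
  rw [h, nonpos_iff_eq_zero, encard_eq_zero] at h4
  apply le_antisymm _ (low_small h₁ h₂ h3)
  apply helly_le
  intro S hS hc
  have hS2 : S ⊆ X₂ := by
    rw [h4, empty_union] at hS
    exact hS
  apply le_helly hS2
  rw [eq_empty_iff_forall_notMem]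
  intro x hx
  have h5 : x ∈ core (alSum X₁ C₁ X₂ C₂) σ S := by
    apply core_sum_right
    · rw [h4]
      exact notMem_empty x
    · rw [inter_eq_left.2 hS2]
      exact hx
  rw [hc] at h5
  exact h5

theorem upper_small (h₁ : IsAligned X₁ C₁) (h₂ : IsAligned X₂ C₂) (e₁ : helly X₁ C₁ σ < σ)
    (e₂ : helly X₂ C₂ σ < σ) : helly (X₁ ∪ X₂) (alSum X₁ C₁ X₂ C₂) σ ≤
      helly X₁ C₁ σ + helly X₂ C₂ σ := by
  apply helly_le
  intro S hS _
  calc S.encard ≤ (X₁ ∪ X₂).encard := encard_le_encard hS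
    _ ≤ X₁.encard + X₂.encard := encard_union_le _ _
    _ ≤ _ := add_le_add (small_le h₁ (small_encard h₁ e₁)) (small_le h₂ (small_encard h₂ e₂))

end sums


theorem hull_trans {U : Type} {C : Set (Set U)} {S T : Set U} {x : U} (hx : x ∈ hull C S)
    (h : S ⊆ hull C T) : x ∈ hull C T := by
  rw [mem_hull] at hx ⊢
  intro A hA hTA
  apply hx A hA
  intro s hs
  exact mem_hull.1 (h hs) A hA hTA

theorem self_hull {U : Type} {C : Set (Set U)} {S : Set U} : S ⊆ hull C S := by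
  intro s hs
  rw [mem_hull]
  exact fun A _ hSA => hSA hs

section two
variable {U : Type} {X₁ X₂ : Set U} {C₁ C₂ : Set (Set U)} {σ : ℕ}

theorem key_step {p r₁ r₂ : U} (hσ : 2 ≤ σ) (h₁ : IsAligned X₁ C₁) (h₂ : IsAligned X₂ C₂)
    (hh : ∀ S ⊆ X₁ ∪ X₂, S.encard = (σ : ℕ∞) + 2 → (core (alSum X₁ C₁ X₂ C₂) σ S).Nonempty)
    (hc : (σ : ℕ∞) + 2 ≤ (X₁ ∪ X₂).encard)
    (hp2 : p ∈ X₂) (hp1 : p ∉ X₁) (hP : ∀ y ∈ X₂, y ∉ X₁ → y = p)
    (hr : r₁ ≠ r₂) (hr₁ : r₁ ∈ X₁) (hr₂ : r₂ ∈ X₁) (hpR : p ∉ hull C₂ {r₁, r₂})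
    {z x : U} (hz1 : z ∈ X₁) (hz2 : z ∈ X₂ → z ∈ hull C₂ {r₁, r₂}) (hx : x ∈ X₁) :
    ∃ z' ∈ X₁, (z' ∈ X₂ → z' ∈ hull C₂ {r₁, r₂}) ∧ z' ∈ hull C₁ {z} ∧ z' ∈ hull C₁ {x} := by
  obtain ⟨r, hrR, hrz, hrX⟩ : ∃ r ∈ ({r₁, r₂} : Set U), z ≠ r ∧ r ∈ X₁ := by
    by_cases h : z = r₁
    · exact ⟨r₂, by simp, by rw [h]; exact hr, hr₂⟩
    · exact ⟨r₁, by simp, h, hr₁⟩
  obtain ⟨S, hsub, hSX, hSm⟩ := exists_superset_subset_encard_eq
      (s := {p, z, x, r}) (t := X₁ ∪ X₂) (k := (σ : ℕ∞) + 2)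
      (by
        rintro y (rfl | rfl | rfl | rfl)
        · exact Or.inr hp2
        · exact Or.inl hz1
        · exact Or.inl hx
        · exact Or.inl hrX)
      (by
        have h4 : ({p, z, x, r} : Set U).encard ≤ 4 := by
          calc ({p, z, x, r} : Set U).encard ≤ ({z, x, r} : Set U).encard + 1 := encard_insert_le _ _
            _ ≤ (({x, r} : Set U).encard + 1) + 1 := add_le_add_left (encard_insert_le _ _) 1
            _ ≤ (({r} : Set U).encard + 1 + 1) + 1 :=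
              add_le_add_left (add_le_add_left (encard_insert_le _ _) 1) 1
            _ = 4 := by rw [encard_singleton]; norm_num
        refine h4.trans ?_
        exact_mod_cast (by omega : 4 ≤ σ + 2))
      hc
  have hpS : p ∈ S := hsub (by simp)
  have hzS : z ∈ S := hsub (by simp)
  have hxS : x ∈ S := hsub (by simp)
  have hrS : r ∈ S := hsub (by simp)
  have hMσ : (S \ {z, r}).encard = σ := by
    have h5 := encard_diff_add_encard_of_subset (s := {z, r}) (t := S) (by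
      rintro y (rfl | rfl)
      · exact hzS
      · exact hrS)
    rw [encard_pair hrz, hSm] at h5
    exact ENat.add_left_injective_of_ne_top (by norm_num) h5
  have hK2 : ∀ y ∈ core C₂ σ (S ∩ X₂), y ∈ hull C₂ {r₁, r₂} := by
    intro y hy
    have h6 := hy ((S \ {z, r}) ∩ X₂) (inter_subset_inter_left _ diff_subset)
      ((encard_le_encard inter_subset_left).trans hMσ.le)
    apply hull_trans h6
    rintro s ⟨hs, hs'⟩
    have hs2 : s ∈ ({z, r} : Set U) := by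
      by_contra hcon
      exact hs' ⟨⟨hs.1, hcon⟩, hs.2⟩
    rcases hs2 with rfl | hs2
    · exact hz2 hs.2
    · rw [mem_singleton_iff] at hs2
      rw [hs2]
      exact self_hull hrR
  obtain ⟨z', hz'⟩ := hh S hSX hSm
  have hz'1 : z' ∈ X₁ := by
    by_contra hcon
    have h7 : z' ∈ X₂ := (core_sub h₁ h₂ hSX hz').resolve_left hcon
    have h8 := hP z' h7 hcon
    apply hpR
    rw [← h8]
    exact hK2 z' (core_right h₁ hSX h7 hz')
  have hz'c := core_left h₂ hSX hz'1 hz'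
  have hone : ∀ s ∈ S, s ∈ X₁ → z' ∈ hull C₁ {s} := by
    intro s hs hsX
    have h9 : ((S ∩ X₁) \ {s}).encard ≤ σ := by
      have h10 := encard_diff_singleton_add_one (a := s) (s := S ∩ X₁) ⟨hs, hsX⟩
      have h11 := encard_diff_singleton_add_one hpS
      rw [hSm] at h11
      have h12 : (S \ {p}).encard = (σ : ℕ∞) + 1 := by
        apply ENat.add_left_injective_of_ne_top ENat.one_ne_top
        change (S \ {p}).encard + 1 = (σ : ℕ∞) + 1 + 1
        rw [h11, add_assoc]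
        norm_num
      have h13 : (S ∩ X₁).encard ≤ (σ : ℕ∞) + 1 := by
        rw [← h12]
        apply encard_le_encard
        intro y hy
        refine ⟨hy.1, fun hcon => hp1 ?_⟩
        rw [← mem_singleton_iff.1 hcon]
        exact hy.2
      rw [← h10] at h13
      exact (ENat.add_le_add_iff_right ENat.one_ne_top).1 h13
    have h14 := hz'c ((S ∩ X₁) \ {s}) diff_subset h9
    apply hull_trans h14
    rintro y ⟨hy, hy'⟩
    apply self_hull
    by_contra hcon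
    exact hy' ⟨hy, hcon⟩
  refine ⟨z', hz'1, fun h => hK2 z' (core_right h₁ hSX h hz'), hone z hzS hz1, hone x hxS hx⟩

theorem key {p : U} (hσ : 2 ≤ σ) (h₁ : IsAligned X₁ C₁) (h₂ : IsAligned X₂ C₂)
    (hh : ∀ S ⊆ X₁ ∪ X₂, S.encard = (σ : ℕ∞) + 2 → (core (alSum X₁ C₁ X₂ C₂) σ S).Nonempty)
    {S₁ S₂ : Set U} (hS₁ : S₁ ⊆ X₁) (c₁ : (σ : ℕ∞) + 2 ≤ S₁.encard) (e₁ : core C₁ σ S₁ = ∅)
    (hS₂ : S₂ ⊆ X₂) (c₂ : (σ : ℕ∞) + 2 ≤ S₂.encard) (e₂ : core C₂ σ S₂ = ∅)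
    (hp2 : p ∈ X₂) (hp1 : p ∉ X₁) (hP : ∀ y ∈ X₂, y ∉ X₁ → y = p) : False := by
  have hp : p ∉ core C₂ σ S₂ := by
    rw [e₂]
    exact notMem_empty p
  obtain ⟨M, hM, hMσ, hpM⟩ : ∃ M ⊆ S₂, M.encard ≤ σ ∧ p ∉ hull C₂ (S₂ \ M) := by
    by_contra hcon
    push Not at hcon
    exact hp hcon
  obtain ⟨r₁, r₂, hr₁, hr₂, hr⟩ : ∃ r₁ r₂, r₁ ∈ S₂ \ M ∧ r₂ ∈ S₂ \ M ∧ r₁ ≠ r₂ := by
    apply one_lt_encard_iff.1
    by_contra hcon
    rw [not_lt] at hcon
    have h3 := encard_diff_add_encard_of_subset hM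
    have h4 : (σ : ℕ∞) + 2 ≤ 1 + σ := by
      calc (σ : ℕ∞) + 2 ≤ S₂.encard := c₂
        _ = (S₂ \ M).encard + M.encard := h3.symm
        _ ≤ 1 + σ := add_le_add hcon hMσ
    have h5 : σ + 2 ≤ 1 + σ := by exact_mod_cast h4
    omega
  have hpR : p ∉ hull C₂ {r₁, r₂} := by
    intro hcon
    apply hpM
    apply hull_trans hcon
    rintro y (rfl | rfl)
    · exact self_hull hr₁
    · exact self_hull hr₂
  have hX : ∀ r ∈ ({r₁, r₂} : Set U), r ∈ S₂ → r ∈ X₁ := by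
    intro r hrR hrS
    by_contra hcon
    have := hP r (hS₂ hrS) hcon
    apply hpR
    rw [← this]
    exact self_hull hrR
  have hr₁X := hX r₁ (by simp) hr₁.1
  have hr₂X := hX r₂ (by simp) hr₂.1
  have hc : (σ : ℕ∞) + 2 ≤ (X₁ ∪ X₂).encard :=
    c₁.trans (encard_le_encard (hS₁.trans subset_union_left))
  have hind : ∀ T : Finset U, (∀ x ∈ T, x ∈ X₁) → ∃ z ∈ X₁, (z ∈ X₂ → z ∈ hull C₂ {r₁, r₂}) ∧
      ∀ x ∈ T, z ∈ hull C₁ {x} := by
    classical
    intro T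
    induction T using Finset.induction_on with
    | empty => exact fun _ => ⟨r₁, hr₁X, fun _ => self_hull (by simp), by simp⟩
    | insert y T _ ih =>
      intro hT
      obtain ⟨z, hz1, hz2, hz3⟩ := ih fun x hx => hT x (Finset.mem_insert_of_mem hx)
      obtain ⟨z', h1, h2, h3, h4⟩ := key_step hσ h₁ h₂ hh hc hp2 hp1 hP hr hr₁X hr₂X hpR hz1 hz2
        (hT y (Finset.mem_insert_self y T))
      refine ⟨z', h1, h2, fun x hx => ?_⟩
      rcases Finset.mem_insert.1 hx with rfl | hx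
      · exact h4
      · exact hull_trans h3 (singleton_subset_iff.2 (hz3 x hx))
  obtain ⟨T, hT, hTσ⟩ := exists_subset_encard_eq (s := S₁) (k := ((σ + 1 : ℕ) : ℕ∞)) (by
    refine le_trans ?_ c₁
    exact_mod_cast (by omega : σ + 1 ≤ σ + 2))
  have hTf := finite_of_encard_eq_coe hTσ
  obtain ⟨z, -, -, hz⟩ := hind hTf.toFinset fun x hx => hS₁ (hT (hTf.mem_toFinset.1 hx))
  have : z ∈ core C₁ σ S₁ := by
    intro M' hM' hM'σ
    obtain ⟨s, hs, hsM⟩ : ∃ s ∈ T, s ∉ M' := by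
      by_contra hcon
      push Not at hcon
      have h6 := (encard_le_encard hcon).trans hM'σ
      rw [hTσ] at h6
      have h7 : σ + 1 ≤ σ := by exact_mod_cast h6
      omega
    apply hull_trans (hz s (hTf.mem_toFinset.2 hs))
    rw [singleton_subset_iff]
    exact self_hull ⟨hT hs, hsM⟩
  rw [e₁] at this
  exact this

theorem low_two (hσ : 2 ≤ σ) (h₁ : IsAligned X₁ C₁) (h₂ : IsAligned X₂ C₂) :
    min (min (helly X₁ C₁ σ) (helly X₂ C₂ σ)) ((σ : ℕ∞) + 2) ≤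
      helly (X₁ ∪ X₂) (alSum X₁ C₁ X₂ C₂) σ := by
  by_contra hc
  rw [not_le] at hc
  have hl1 : helly (X₁ ∪ X₂) (alSum X₁ C₁ X₂ C₂) σ < helly X₁ C₁ σ :=
    hc.trans_le ((min_le_left _ _).trans (min_le_left _ _))
  have hl2 : helly (X₁ ∪ X₂) (alSum X₁ C₁ X₂ C₂) σ < helly X₂ C₂ σ :=
    hc.trans_le ((min_le_left _ _).trans (min_le_right _ _))
  have hl3 : helly (X₁ ∪ X₂) (alSum X₁ C₁ X₂ C₂) σ < (σ : ℕ∞) + 2 :=
    hc.trans_le (min_le_right _ _)
  have hge : (σ : ℕ∞) + 1 ≤ helly (X₁ ∪ X₂) (alSum X₁ C₁ X₂ C₂) σ := by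
    have h3 := low_main (σ := σ) (by omega) h₁ h₂
    rcases min_le_iff.1 h3 with h4 | h4
    · rcases min_le_iff.1 h4 with h5 | h5
      · exact absurd h5 (not_le.2 hl1)
      · exact absurd h5 (not_le.2 hl2)
    · exact h4
  obtain ⟨p, hp2, hp1⟩ : ∃ p ∈ X₂, p ∉ X₁ := by
    by_contra hcon
    push Not at hcon
    exact absurd (low_nested (σ := σ) h₁ h₂ hcon) (not_le.2 hl1)
  obtain ⟨q, hq1, hq2⟩ : ∃ q ∈ X₁, q ∉ X₂ := by
    by_contra hcon
    push Not at hcon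
    have h5 := low_nested (σ := σ) h₂ h₁ hcon
    rw [helly_comm] at h5
    exact absurd h5 (not_le.2 hl2)
  have hcast : ((σ + 1 : ℕ) : ℕ∞) + 1 = (σ : ℕ∞) + 2 := by
    push_cast
    rw [add_assoc]
    norm_num
  obtain ⟨S₁, hS₁, c₁, e₁⟩ := exists_of_lt (m := σ + 1) (lt_of_le_of_lt (by exact_mod_cast hge) hl1)
  obtain ⟨S₂, hS₂, c₂, e₂⟩ := exists_of_lt (m := σ + 1) (lt_of_le_of_lt (by exact_mod_cast hge) hl2)
  rw [hcast] at c₁ c₂
  have hh : ∀ S ⊆ X₁ ∪ X₂, S.encard = (σ : ℕ∞) + 2 →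
      (core (alSum X₁ C₁ X₂ C₂) σ S).Nonempty := by
    intro S hS hSm
    by_contra hcon
    rw [not_nonempty_iff_eq_empty] at hcon
    have h6 := le_helly hS hcon
    rw [hSm] at h6
    exact absurd h6 (not_le.2 hl3)
  by_cases hP : ∀ y ∈ X₂, y ∉ X₁ → y = p
  · exact key hσ h₁ h₂ hh hS₁ c₁ e₁ hS₂ c₂ e₂ hp2 hp1 hP
  by_cases hQ : ∀ y ∈ X₁, y ∉ X₂ → y = q
  · refine key (p := q) hσ h₂ h₁ ?_ hS₂ c₂ e₂ hS₁ c₁ e₁ hq1 hq2 hQ
    intro S hS hSm
    rw [alSum_comm]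
    rw [union_comm] at hS
    exact hh S hS hSm
  push Not at hP hQ
  obtain ⟨p', hp'2, hp'1, hpp'⟩ := hP
  obtain ⟨q', hq'1, hq'2, hqq'⟩ := hQ
  obtain ⟨S, hsub, hSX, hSm⟩ := exists_superset_subset_encard_eq
      (s := {p, p', q, q'}) (t := X₁ ∪ X₂) (k := (σ : ℕ∞) + 2)
      (by
        rintro y (rfl | rfl | rfl | rfl)
        · exact Or.inr hp2
        · exact Or.inr hp'2
        · exact Or.inl hq1
        · exact Or.inl hq'1)
      (by
        have h4 : ({p, p', q, q'} : Set U).encard ≤ 4 := by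
          calc ({p, p', q, q'} : Set U).encard ≤ ({p', q, q'} : Set U).encard + 1 :=
                encard_insert_le _ _
            _ ≤ (({q, q'} : Set U).encard + 1) + 1 := add_le_add_left (encard_insert_le _ _) 1
            _ ≤ (({q'} : Set U).encard + 1 + 1) + 1 :=
              add_le_add_left (add_le_add_left (encard_insert_le _ _) 1) 1
            _ = 4 := by rw [encard_singleton]; norm_num
        refine h4.trans ?_
        exact_mod_cast (by omega : 4 ≤ σ + 2))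
      (c₁.trans (encard_le_encard (hS₁.trans subset_union_left)))
  have hsmall : ∀ (s t : U) (Y : Set U), s ≠ t → s ∈ S → t ∈ S → s ∉ Y → t ∉ Y →
      (S ∩ Y).encard ≤ σ := by
    intro s t Y hst hs ht hsY htY
    have h5 := encard_diff_add_encard_of_subset (s := {s, t}) (t := S) (by
      rintro y (rfl | rfl)
      · exact hs
      · exact ht)
    rw [encard_pair hst, hSm] at h5
    have h6 : (S \ {s, t}).encard = σ := ENat.add_left_injective_of_ne_top (by norm_num) h5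
    rw [← h6]
    apply encard_le_encard
    rintro y ⟨hy, hyY⟩
    refine ⟨hy, ?_⟩
    rintro (rfl | hyt)
    · exact hsY hyY
    · rw [mem_singleton_iff] at hyt
      rw [hyt] at hyY
      exact htY hyY
  have h7 := hh S hSX hSm
  rw [core_sum_empty h₁ h₂ hSX
    (core_small h₁.empty (hsmall p p' X₁ hpp'.symm (hsub (by simp)) (hsub (by simp)) hp1 hp'1))
    (core_small h₂.empty (hsmall q q' X₂ hqq'.symm (hsub (by simp)) (hsub (by simp)) hq2 hq'2))]
    at h7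
  exact not_nonempty_empty h7

end two

/-! ### Constructions -/

section point
variable {U : Type} {X F : Set U} {p : U} {σ : ℕ}

/-- a point belongs to all convex sets which are not contained in `F` -/
def Pt (X F : Set U) (p : U) : Set (Set U) := {A | A ⊆ X ∧ (p ∈ A ∨ A ⊆ F)}

theorem pt_aligned (hp : p ∈ X) : IsAligned X (Pt X F p) where
  sub := fun A hA => hA.1
  empty := ⟨empty_subset _, Or.inr (empty_subset _)⟩
  whole := ⟨Subset.rfl, Or.inl hp⟩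
  inter := by
    intro 𝓕 h𝓕 hne
    obtain ⟨A₀, hA₀⟩ := hne
    refine ⟨(sInter_subset_of_mem hA₀).trans (h𝓕 hA₀).1, ?_⟩
    by_cases h : ∀ A ∈ 𝓕, p ∈ A
    · exact Or.inl (mem_sInter.2 h)
    · push Not at h
      obtain ⟨A, hA, hpA⟩ := h
      exact Or.inr ((sInter_subset_of_mem hA).trans ((h𝓕 hA).2.resolve_left hpA))
  chain := by
    intro 𝓕 h𝓕 _ _
    refine ⟨sUnion_subset fun A hA => (h𝓕 hA).1, ?_⟩
    by_cases h : ∃ A ∈ 𝓕, p ∈ A
    · obtain ⟨A, hA, hpA⟩ := h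
      exact Or.inl ⟨A, hA, hpA⟩
    · push Not at h
      exact Or.inr (sUnion_subset fun A hA => (h𝓕 hA).2.resolve_left (h A hA))

theorem pt_mem {S : Set U} (h : (σ : ℕ∞) + 1 ≤ (S \ F).encard) : p ∈ core (Pt X F p) σ S := by
  intro M hM hMσ
  rw [mem_hull]
  intro A hA hSA
  by_contra hp
  have hAF := hA.2.resolve_left hp
  have h1 : S \ F ⊆ M := by
    intro s hs
    by_contra hsM
    exact hs.2 (hAF (hSA ⟨hs.1, hsM⟩))
  have h2 := h.trans ((encard_le_encard h1).trans hMσ)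
  exact absurd h2 (not_le.2 (by exact_mod_cast Nat.lt_succ_self σ))

theorem pt_empty {S : Set U} (hS : S ⊆ X) (hp : p ∈ X) (hpF : p ∉ F) (hσ : 1 ≤ σ)
    (h : (S \ F).encard ≤ σ) : core (Pt X F p) σ S = ∅ := by
  rw [eq_empty_iff_forall_notMem]
  intro x hx
  have h1 := hx (S \ F) diff_subset h
  rw [mem_hull] at h1
  have h2 := h1 (S ∩ F) ⟨inter_subset_left.trans hS, Or.inr inter_subset_right⟩ (by
    rintro s ⟨hs, hs'⟩
    refine ⟨hs, ?_⟩
    by_contra hc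
    exact hs' ⟨hs, hc⟩)
  have h3 := hx {x} (singleton_subset_iff.2 h2.1) (by
    rw [encard_singleton]
    exact_mod_cast hσ)
  rw [mem_hull] at h3
  have h4 := h3 ((S \ {x}) ∪ {p}) ⟨union_subset (diff_subset.trans hS)
    (singleton_subset_iff.2 hp), Or.inl (Or.inr rfl)⟩ subset_union_left
  rcases h4 with h4 | h4
  · exact h4.2 rfl
  · rw [mem_singleton_iff] at h4
    rw [h4] at h2
    exact hpF h2.2

theorem pt_helly (hF : F ⊆ X) (hp : p ∈ X) (hpF : p ∉ F) (hσ : 1 ≤ σ)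
    (hX : (σ : ℕ∞) ≤ (X \ F).encard) : helly X (Pt X F p) σ = F.encard + σ := by
  apply helly_eq
  · intro S hS hc
    have h1 : (S \ F).encard ≤ σ := by
      apply not_add_one_le
      intro h2
      have := pt_mem (X := X) (p := p) h2
      rw [hc] at this
      exact this
    calc S.encard = (S ∩ F).encard + (S \ F).encard := by
          rw [add_comm]
          exact (encard_diff_add_encard_inter S F).symm
      _ ≤ F.encard + σ := add_le_add (encard_le_encard inter_subset_right) h1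
  · obtain ⟨T, hT, hTσ⟩ := exists_subset_encard_eq hX
    refine ⟨F ∪ T, union_subset hF (hT.trans diff_subset), ?_, ?_⟩
    · apply pt_empty (union_subset hF (hT.trans diff_subset)) hp hpF hσ
      rw [← hTσ]
      apply encard_le_encard
      rintro s ⟨hs | hs, hs'⟩
      · exact absurd hs hs'
      · exact hs
    · rw [encard_union_eq, hTσ]
      rw [disjoint_left]
      intro s hs hs'
      exact (hT hs').2 hs

theorem pow_aligned (X : Set U) : IsAligned X {A | A ⊆ X} where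
  sub := fun A hA => hA
  empty := empty_subset _
  whole := Subset.rfl
  inter := by
    intro 𝓕 h𝓕 hne
    obtain ⟨A₀, hA₀⟩ := hne
    exact (sInter_subset_of_mem hA₀).trans (h𝓕 hA₀)
  chain := by
    intro 𝓕 h𝓕 _ _
    exact sUnion_subset fun A hA => h𝓕 hA

theorem pow_helly (h : X.encard ≤ σ) : helly X {A | A ⊆ X} σ = X.encard := by
  apply helly_eq
  · intro S hS _
    exact encard_le_encard hS
  · exact ⟨X, Subset.rfl, core_small (pow_aligned X).empty h, le_rfl⟩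

end point

/-- the columns of `ℕ × ℕ` -/
def col (k : ℕ) : Set (ℕ × ℕ) := {x | x.2 = k}

theorem col_encard (k : ℕ) : (col k).encard = ⊤ := by
  rw [encard_eq_top_iff]
  apply infinite_of_injective_forall_mem (f := fun n : ℕ => (n, k))
  · intro m n h
    exact (Prod.mk.inj h).1
  · intro n
    rfl

theorem exists_col (k : ℕ) (v : ℕ∞) : ∃ F ⊆ col k, F.encard = v :=
  exists_subset_encard_eq (by rw [col_encard]; exact le_top)

theorem univ_diff {F : Set (ℕ × ℕ)} {k : ℕ} (hF : F ⊆ col k) (v : ℕ∞) :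
    v ≤ (univ \ F).encard := by
  have : col (k + 1) ⊆ univ \ F := by
    intro x hx
    refine ⟨mem_univ _, fun hc => ?_⟩
    have h1 : x.2 = k := hF hc
    have h2 : x.2 = k + 1 := hx
    omega
  have h3 := encard_le_encard this
  rw [col_encard] at h3
  exact le_top.trans h3

/-- sets of the form `S \ M` with `S` the column `0` are convex in the sum -/
theorem top_of {X₁ X₂ : Set (ℕ × ℕ)} {C₁ C₂ : Set (Set (ℕ × ℕ))} {σ : ℕ} (hσ : 1 ≤ σ)
    (hX : col 0 ⊆ X₁ ∪ X₂) (h : ∀ T ⊆ col 0, T ∈ alSum X₁ C₁ X₂ C₂) :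
    helly (X₁ ∪ X₂) (alSum X₁ C₁ X₂ C₂) σ = ⊤ := by
  rw [eq_top_iff, ← col_encard 0]
  apply le_helly hX
  rw [eq_empty_iff_forall_notMem]
  intro x hx
  have h1 := hx ∅ (empty_subset _) (by simp)
  rw [mem_hull] at h1
  have h2 := h1 (col 0) (h _ Subset.rfl) diff_subset
  have h3 := hx {x} (singleton_subset_iff.2 h2) (by
    rw [encard_singleton]
    exact_mod_cast hσ)
  rw [mem_hull] at h3
  exact (h3 (col 0 \ {x}) (h _ diff_subset) Subset.rfl).2 rfl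

theorem occurs_top {σ : ℕ} (hσ : 1 ≤ σ) {a b : ℕ∞} (ha : 1 ≤ a) (hb : (σ : ℕ∞) ≤ b) :
    Occurs σ a b ⊤ := by
  obtain ⟨F₂, hF₂, hb₂⟩ := exists_col 2 (b - σ)
  have hp3 : ∀ {n k : ℕ} {F : Set (ℕ × ℕ)}, F ⊆ col k → k ≠ 3 → (n, 3) ∉ F := by
    intro n k F hF hk hc
    have : (3 : ℕ) = k := hF hc
    exact hk this.symm
  rcases lt_or_ge a (σ : ℕ∞) with h | h
  · -- a finite first space
    obtain ⟨m, rfl⟩ := ENat.ne_top_iff_exists.1 (ne_top_of_lt h)
    have hm : 1 ≤ m := by exact_mod_cast ha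
    let X₁ : Set (ℕ × ℕ) := (fun n : ℕ => (n, 3)) '' Iio m
    have hX1 : X₁.encard = m := by
      have hinj : Function.Injective (fun n : ℕ => (n, 3)) := fun a b h => (Prod.mk.inj h).1
      rw [hinj.encard_image, ← Finset.coe_Iio, encard_coe_eq_coe_finsetCard, Nat.card_Iio]
    have hpX : ((0, 3) : ℕ × ℕ) ∈ X₁ := ⟨0, hm, rfl⟩
    refine ⟨ℕ × ℕ, X₁, univ, {A | A ⊆ X₁}, Pt univ F₂ (0, 3), pow_aligned X₁,
      pt_aligned (mem_univ _), ?_, ?_, ?_⟩
    · rw [pow_helly (by rw [hX1]; exact h.le), hX1]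
    · rw [pt_helly (subset_univ _) (mem_univ _) (hp3 hF₂ (by norm_num)) hσ (univ_diff hF₂ _), hb₂,
        tsub_add_cancel_of_le hb]
    · apply top_of hσ (fun x _ => Or.inr (mem_univ x))
      intro T hT
      refine ⟨∅, empty_subset _, T ∪ {(0, 3)}, ⟨subset_univ _, Or.inl (Or.inr rfl)⟩, ?_⟩
      ext x
      constructor
      · intro hx
        refine Or.inl (Or.inr ⟨Or.inl hx, ?_⟩)
        rintro ⟨n, _, rfl⟩
        have : (3 : ℕ) = 0 := hT hx
        omega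
      · rintro ((hx | hx) | hx)
        · exact absurd hx.1 (notMem_empty x)
        · rcases hx.1 with h1 | h1
          · exact h1
          · rw [mem_singleton_iff] at h1
            rw [h1] at hx
            exact absurd hpX hx.2
        · exact absurd hx.1 (notMem_empty x)
  · obtain ⟨F₁, hF₁, ha₁⟩ := exists_col 1 (a - σ)
    refine ⟨ℕ × ℕ, univ, univ, Pt univ F₁ (1, 3), Pt univ F₂ (0, 3),
      pt_aligned (mem_univ _), pt_aligned (mem_univ _), ?_, ?_, ?_⟩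
    · rw [pt_helly (subset_univ _) (mem_univ _) (hp3 hF₁ (by norm_num)) hσ (univ_diff hF₁ _), ha₁,
        tsub_add_cancel_of_le h]
    · rw [pt_helly (subset_univ _) (mem_univ _) (hp3 hF₂ (by norm_num)) hσ (univ_diff hF₂ _), hb₂,
        tsub_add_cancel_of_le hb]
    · apply top_of hσ (fun x _ => Or.inr (mem_univ x))
      intro T hT
      refine ⟨T ∪ {(1, 3)}, ⟨subset_univ _, Or.inl (Or.inr rfl)⟩, T ∪ {(0, 3)},
        ⟨subset_univ _, Or.inl (Or.inr rfl)⟩, ?_⟩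
      ext x
      constructor
      · intro hx
        exact Or.inr ⟨Or.inl hx, Or.inl hx⟩
      · rintro ((hx | hx) | hx)
        · exact absurd (mem_univ x) hx.2
        · exact absurd (mem_univ x) hx.2
        · rcases hx.1 with h1 | h1
          · exact h1
          · rcases hx.2 with h2 | h2
            · exact h2
            · rw [mem_singleton_iff] at h1 h2
              rw [h1] at h2
              exact absurd (Prod.mk.inj h2).1 (by norm_num)


theorem col3 {n k : ℕ} {F : Set (ℕ × ℕ)} (hF : F ⊆ col k) (hk : k ≠ 3) : (n, 3) ∉ F := by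
  intro hc
  have : (3 : ℕ) = k := hF hc
  exact hk this.symm

theorem occurs_b {σ : ℕ} (hσ : 1 ≤ σ) {a b : ℕ∞} (ha : a < σ) (hb : (σ : ℕ∞) ≤ b) :
    Occurs σ a b b := by
  obtain ⟨F₂, hF₂, hb₂⟩ := exists_col 2 (b - σ)
  obtain ⟨X₁, hX₁, ha₁⟩ := exists_col 4 a
  have h1 : IsAligned X₁ {A | A ⊆ X₁} := pow_aligned X₁
  have h2 : IsAligned univ (Pt univ F₂ (0, 3)) := pt_aligned (mem_univ _)
  have e1 : helly X₁ {A | A ⊆ X₁} σ = a := by
    rw [pow_helly (by rw [ha₁]; exact ha.le), ha₁]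
  have e2 : helly univ (Pt univ F₂ (0, 3)) σ = b := by
    rw [pt_helly (subset_univ _) (mem_univ _) (col3 hF₂ (by norm_num)) hσ (univ_diff hF₂ _), hb₂,
        tsub_add_cancel_of_le hb]
  refine ⟨ℕ × ℕ, X₁, univ, {A | A ⊆ X₁}, Pt univ F₂ (0, 3), h1, h2, e1, e2, ?_⟩
  apply le_antisymm
  · apply helly_le
    intro S hS hc
    have h3 : (S \ F₂).encard ≤ σ := by
      apply not_add_one_le
      intro h4
      have h5 : ((0, 3) : ℕ × ℕ) ∈ core (Pt univ F₂ (0, 3)) σ (S ∩ univ) := by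
        rw [inter_univ]
        exact pt_mem h4
      have h6 := core_sum_right (X₁ := X₁) (C₁ := {A | A ⊆ X₁}) (col3 hX₁ (by norm_num)) h5
      rw [hc] at h6
      exact h6
    calc S.encard = (S ∩ F₂).encard + (S \ F₂).encard := by
          rw [add_comm]
          exact (encard_diff_add_encard_inter S F₂).symm
      _ ≤ F₂.encard + σ := add_le_add (encard_le_encard inter_subset_right) h3
      _ = b := by rw [hb₂, tsub_add_cancel_of_le hb]
  · have h3 := low_small h1 h2 (by rw [e1]; exact ha)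
    rw [e2] at h3
    exact h3

theorem occurs_a {σ : ℕ} (hσ : 1 ≤ σ) {a b : ℕ∞} (ha : (σ : ℕ∞) ≤ a) (hb : (σ : ℕ∞) ≤ b) :
    Occurs σ a b a := by
  obtain ⟨F₂, hF₂, hb₂⟩ := exists_col 2 (b - σ)
  obtain ⟨F₁, hF₁, ha₁⟩ := exists_col 1 (a - σ)
  let X₂ : Set (ℕ × ℕ) := univ \ {(1, 3)}
  have hF₂X : F₂ ⊆ X₂ := by
    intro x hx
    refine ⟨mem_univ x, fun hc => ?_⟩
    rw [mem_singleton_iff] at hc
    rw [hc] at hx
    exact col3 hF₂ (by norm_num) hx
  have hpX : ((0, 3) : ℕ × ℕ) ∈ X₂ :=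
    ⟨mem_univ _, fun hc => absurd (Prod.mk.inj (mem_singleton_iff.1 hc)).1 (by norm_num)⟩
  have h1 : IsAligned univ (Pt univ F₁ (1, 3)) := pt_aligned (mem_univ _)
  have h2 : IsAligned X₂ (Pt X₂ F₂ (0, 3)) := pt_aligned hpX
  have e1 : helly univ (Pt univ F₁ (1, 3)) σ = a := by
    rw [pt_helly (subset_univ _) (mem_univ _) (col3 hF₁ (by norm_num)) hσ (univ_diff hF₁ _), ha₁,
        tsub_add_cancel_of_le ha]
  have e2 : helly X₂ (Pt X₂ F₂ (0, 3)) σ = b := by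
    rw [pt_helly hF₂X hpX (col3 hF₂ (by norm_num)) hσ _, hb₂, tsub_add_cancel_of_le hb]
    have : col 0 ⊆ X₂ \ F₂ := by
      intro x hx
      have hx0 : x.2 = 0 := hx
      refine ⟨⟨mem_univ x, fun hc => ?_⟩, fun hc => ?_⟩
      · rw [mem_singleton_iff] at hc
        rw [hc] at hx0
        exact absurd hx0 (by norm_num)
      · have hx2 : x.2 = 2 := hF₂ hc
        omega
    have h3 := encard_le_encard this
    rw [col_encard] at h3
    exact le_top.trans h3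
  refine ⟨ℕ × ℕ, univ, X₂, Pt univ F₁ (1, 3), Pt X₂ F₂ (0, 3), h1, h2, e1, e2, ?_⟩
  apply le_antisymm
  · apply helly_le
    intro S hS hc
    have h3 : (S \ F₁).encard ≤ σ := by
      apply not_add_one_le
      intro h4
      have h5 : ((1, 3) : ℕ × ℕ) ∈ core (Pt univ F₁ (1, 3)) σ (S ∩ univ) := by
        rw [inter_univ]
        exact pt_mem h4
      have h6 := core_sum_left (X₂ := X₂) (C₂ := Pt X₂ F₂ (0, 3)) (fun hc' => hc'.2 rfl) h5
      rw [hc] at h6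
      exact h6
    calc S.encard = (S ∩ F₁).encard + (S \ F₁).encard := by
          rw [add_comm]
          exact (encard_diff_add_encard_inter S F₁).symm
      _ ≤ F₁.encard + σ := add_le_add (encard_le_encard inter_subset_right) h3
      _ = a := by rw [ha₁, tsub_add_cancel_of_le ha]
  · have h3 := low_nested (σ := σ) h1 h2 (subset_univ _)
    rw [e1] at h3
    exact h3

theorem occurs_two {σ : ℕ} (hσ : 1 ≤ σ) {a b : ℕ∞} (ha : 2 * (σ : ℕ∞) ≤ a)
    (hb : 2 * (σ : ℕ∞) ≤ b) : Occurs σ a b (2 * σ) := by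
  have hσa : (σ : ℕ∞) ≤ a := le_trans (by rw [two_mul]; exact le_self_add) ha
  have hσb : (σ : ℕ∞) ≤ b := le_trans (by rw [two_mul]; exact le_self_add) hb
  have hσn : (σ : ℕ∞) ≠ ⊤ := ENat.coe_ne_top σ
  have ha' : (σ : ℕ∞) ≤ a - σ := by
    apply ENat.le_sub_of_add_le_right hσn
    rw [← two_mul]
    exact ha
  have hb' : (σ : ℕ∞) ≤ b - σ := by
    apply ENat.le_sub_of_add_le_right hσn
    rw [← two_mul]
    exact hb
  obtain ⟨F₂, hF₂, hb₂⟩ := exists_col 2 (b - σ)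
  obtain ⟨F₁, hF₁, ha₁⟩ := exists_col 1 (a - σ)
  have hdis : ∀ x, x ∈ F₁ → x ∉ F₂ := by
    intro x hx hx'
    have h1 : x.2 = 1 := hF₁ hx
    have h2 : x.2 = 2 := hF₂ hx'
    omega
  obtain ⟨X₁, hX₁⟩ : ∃ X : Set (ℕ × ℕ), X = {(1, 3)} ∪ (F₁ ∪ F₂) := ⟨_, rfl⟩
  obtain ⟨X₂, hX₂⟩ : ∃ X : Set (ℕ × ℕ), X = {(0, 3)} ∪ (F₁ ∪ F₂) := ⟨_, rfl⟩
  have hF1X1 : F₁ ⊆ X₁ := by rw [hX₁]; exact fun x hx => Or.inr (Or.inl hx)
  have hF2X1 : F₂ ⊆ X₁ := by rw [hX₁]; exact fun x hx => Or.inr (Or.inr hx)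
  have hF1X2 : F₁ ⊆ X₂ := by rw [hX₂]; exact fun x hx => Or.inr (Or.inl hx)
  have hF2X2 : F₂ ⊆ X₂ := by rw [hX₂]; exact fun x hx => Or.inr (Or.inr hx)
  have hp1 : ((1, 3) : ℕ × ℕ) ∈ X₁ := by rw [hX₁]; exact Or.inl rfl
  have hp2 : ((0, 3) : ℕ × ℕ) ∈ X₂ := by rw [hX₂]; exact Or.inl rfl
  have hp12 : ((1, 3) : ℕ × ℕ) ∉ X₂ := by
    rw [hX₂]
    rintro (h | h | h)
    · exact absurd (Prod.mk.inj (mem_singleton_iff.1 h)).1 (by norm_num)
    · exact col3 hF₁ (by norm_num) h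
    · exact col3 hF₂ (by norm_num) h
  have hp21 : ((0, 3) : ℕ × ℕ) ∉ X₁ := by
    rw [hX₁]
    rintro (h | h | h)
    · exact absurd (Prod.mk.inj (mem_singleton_iff.1 h)).1 (by norm_num)
    · exact col3 hF₁ (by norm_num) h
    · exact col3 hF₂ (by norm_num) h
  have h1 : IsAligned X₁ (Pt X₁ F₁ (1, 3)) := pt_aligned hp1
  have h2 : IsAligned X₂ (Pt X₂ F₂ (0, 3)) := pt_aligned hp2
  have e1 : helly X₁ (Pt X₁ F₁ (1, 3)) σ = a := by
    rw [pt_helly hF1X1 hp1 (col3 hF₁ (by norm_num)) hσ _, ha₁, tsub_add_cancel_of_le hσa]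
    rw [← hb₂] at hb'
    exact hb'.trans (encard_le_encard fun x hx => ⟨hF2X1 hx, fun hc => hdis x hc hx⟩)
  have e2 : helly X₂ (Pt X₂ F₂ (0, 3)) σ = b := by
    rw [pt_helly hF2X2 hp2 (col3 hF₂ (by norm_num)) hσ _, hb₂, tsub_add_cancel_of_le hσb]
    rw [← ha₁] at ha'
    exact ha'.trans (encard_le_encard fun x hx => ⟨hF1X2 hx, fun hc => hdis x hx hc⟩)
  refine ⟨ℕ × ℕ, X₁, X₂, Pt X₁ F₁ (1, 3), Pt X₂ F₂ (0, 3), h1, h2, e1, e2, ?_⟩
  apply helly_eq
  · intro S hS hc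
    have h3 : ((S ∩ X₁) \ F₁).encard ≤ σ := by
      apply not_add_one_le
      intro h4
      have h6 := core_sum_left (X₂ := X₂) (C₂ := Pt X₂ F₂ (0, 3)) hp12
        (pt_mem (X := X₁) (p := (1, 3)) h4)
      rw [hc] at h6
      exact h6
    have h4 : ((S ∩ X₂) \ F₂).encard ≤ σ := by
      apply not_add_one_le
      intro h4
      have h6 := core_sum_right (X₁ := X₁) (C₁ := Pt X₁ F₁ (1, 3)) hp21
        (pt_mem (X := X₂) (p := (0, 3)) h4)
      rw [hc] at h6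
      exact h6
    have h5 : S ⊆ ((S ∩ X₁) \ F₁) ∪ ((S ∩ X₂) \ F₂) := by
      intro s hs
      by_cases hs1 : s ∈ F₁
      · exact Or.inr ⟨⟨hs, hF1X2 hs1⟩, hdis s hs1⟩
      · by_cases hs2 : s ∈ X₁
        · exact Or.inl ⟨⟨hs, hs2⟩, hs1⟩
        · refine Or.inr ⟨⟨hs, (hS hs).resolve_left hs2⟩, fun hc => hs2 (hF2X1 hc)⟩
    calc S.encard ≤ _ := encard_le_encard h5
      _ ≤ _ := encard_union_le _ _
      _ ≤ (σ : ℕ∞) + σ := add_le_add h3 h4
      _ = 2 * σ := (two_mul _).symm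
  · have ha'' : (σ : ℕ∞) ≤ F₁.encard := by rw [ha₁]; exact ha'
    have hb'' : (σ : ℕ∞) ≤ F₂.encard := by rw [hb₂]; exact hb'
    obtain ⟨T₁, hT₁, hT₁σ⟩ := exists_subset_encard_eq ha''
    obtain ⟨T₂, hT₂, hT₂σ⟩ := exists_subset_encard_eq hb''
    have hSX1 : T₁ ∪ T₂ ⊆ X₁ := union_subset (hT₁.trans hF1X1) (hT₂.trans hF2X1)
    have hSX2 : T₁ ∪ T₂ ⊆ X₂ := union_subset (hT₁.trans hF1X2) (hT₂.trans hF2X2)
    refine ⟨T₁ ∪ T₂, hSX1.trans subset_union_left, ?_, ?_⟩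
    · apply core_sum_empty h1 h2 (hSX1.trans subset_union_left)
      · rw [inter_eq_left.2 hSX1]
        apply pt_empty hSX1 hp1 (col3 hF₁ (by norm_num)) hσ
        rw [← hT₂σ]
        apply encard_le_encard
        rintro s ⟨hs | hs, hs'⟩
        · exact absurd (hT₁ hs) hs'
        · exact hs
      · rw [inter_eq_left.2 hSX2]
        apply pt_empty hSX2 hp2 (col3 hF₂ (by norm_num)) hσ
        rw [← hT₁σ]
        apply encard_le_encard
        rintro s ⟨hs | hs, hs'⟩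
        · exact hs
        · exact absurd (hT₂ hs) hs'
    · rw [encard_union_eq, hT₁σ, hT₂σ, two_mul]
      rw [disjoint_left]
      intro s hs hs'
      exact hdis s (hT₁ hs) (hT₂ hs')

theorem iio_encard (n : ℕ) : (Iio n).encard = n := by
  rw [← Finset.coe_Iio, encard_coe_eq_coe_finsetCard, Nat.card_Iio]

theorem ico_encard (m n : ℕ) : (Ico m n).encard = ((n - m : ℕ) : ℕ∞) := by
  rw [← Finset.coe_Ico, encard_coe_eq_coe_finsetCard, Nat.card_Ico]

theorem occurs_small {σ : ℕ} {a b c : ℕ∞} (hab : a ≤ b) (hb : b < σ) (hbc : b ≤ c)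
    (hc : c ≤ a + b) : Occurs σ a b c := by
  obtain ⟨b, rfl⟩ := ENat.ne_top_iff_exists.1 (ne_top_of_lt hb)
  obtain ⟨a, rfl⟩ := ENat.ne_top_iff_exists.1 (ne_top_of_le_ne_top (ENat.coe_ne_top b) hab)
  obtain ⟨c, rfl⟩ := ENat.ne_top_iff_exists.1
    (ne_top_of_le_ne_top (by exact_mod_cast ENat.coe_ne_top (a + b)) hc)
  have hab' : a ≤ b := by exact_mod_cast hab
  have hb' : b < σ := by exact_mod_cast hb
  have hbc' : b ≤ c := by exact_mod_cast hbc
  have hc' : c ≤ a + b := by exact_mod_cast hc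
  have ea : (Ico (c - a) c).encard = a := by
    rw [ico_encard, Nat.sub_sub_self (hab'.trans hbc')]
  have eu : Ico (c - a) c ∪ Iio b = Iio c := by
    ext x
    rw [mem_union, mem_Ico, mem_Iio, mem_Iio]
    omega
  have haσ : (Ico (c - a) c).encard ≤ σ := by
    rw [ea]
    exact_mod_cast (by omega : a ≤ σ)
  have hbσ : (Iio b).encard ≤ σ := by
    rw [iio_encard]
    exact hb.le
  refine ⟨ℕ, Ico (c - a) c, Iio b, {A | A ⊆ Ico (c - a) c}, {A | A ⊆ Iio b}, pow_aligned _,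
    pow_aligned _, ?_, ?_, ?_⟩
  · rw [pow_helly haσ, ea]
  · rw [pow_helly hbσ, iio_encard]
  · apply helly_eq
    · intro S hS _
      rw [← iio_encard c, ← eu]
      exact encard_le_encard hS
    · refine ⟨_, Subset.rfl, ?_, ?_⟩
      · apply core_sum_empty (pow_aligned _) (pow_aligned _) Subset.rfl
        · exact core_small (pow_aligned _).empty
            ((encard_le_encard inter_subset_right).trans haσ)
        · exact core_small (pow_aligned _).empty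
            ((encard_le_encard inter_subset_right).trans hbσ)
      · rw [eu, iio_encard]

/-- **Theorem.** The `σ`-Helly number of the aligned sum of two aligned spaces. -/
theorem result (σ : ℕ) (hσ : 1 ≤ σ) :
    (∀ (U : Type) (X₁ X₂ : Set U) (C₁ C₂ : Set (Set U)), IsAligned X₁ C₁ → IsAligned X₂ C₂ →
      (helly X₁ C₁ σ = 0 → helly (X₁ ∪ X₂) (alSum X₁ C₁ X₂ C₂) σ = helly X₂ C₂ σ) ∧
      (helly X₁ C₁ σ < σ → helly X₂ C₂ σ ≤ helly (X₁ ∪ X₂) (alSum X₁ C₁ X₂ C₂) σ) ∧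
      (helly X₁ C₁ σ < σ → helly X₂ C₂ σ < σ →
        helly (X₁ ∪ X₂) (alSum X₁ C₁ X₂ C₂) σ ≤ helly X₁ C₁ σ + helly X₂ C₂ σ) ∧
      min (min (helly X₁ C₁ σ) (helly X₂ C₂ σ)) ((σ : ℕ∞) + 1) ≤
        helly (X₁ ∪ X₂) (alSum X₁ C₁ X₂ C₂) σ ∧
      (2 ≤ σ → min (min (helly X₁ C₁ σ) (helly X₂ C₂ σ)) ((σ : ℕ∞) + 2) ≤
        helly (X₁ ∪ X₂) (alSum X₁ C₁ X₂ C₂) σ)) ∧
    ∀ a b : ℕ∞, 1 ≤ a → a ≤ b →
      (b < σ → ∀ c : ℕ∞, b ≤ c → c ≤ a + b → Occurs σ a b c) ∧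
      ((σ : ℕ∞) ≤ b → Occurs σ a b ⊤ ∧ (a < σ → Occurs σ a b b) ∧
        ((σ : ℕ∞) ≤ a → Occurs σ a b (min a (2 * σ)))) := by
  refine ⟨fun U X₁ X₂ C₁ C₂ h₁ h₂ => ⟨zero_case hσ h₁ h₂, low_small h₁ h₂, upper_small h₁ h₂,
    low_main hσ h₁ h₂, fun h => low_two h h₁ h₂⟩, fun a b ha hab => ⟨fun hb c hbc hc => occurs_small hab hb hbc hc,
    fun hb => ⟨occurs_top hσ ha hb, fun h => occurs_b hσ h hb, fun h => ?_⟩⟩⟩
  rcases le_total a (2 * (σ : ℕ∞)) with h' | h'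
  · rw [min_eq_left h']
    exact occurs_a hσ h hb
  · rw [min_eq_right h']
    exact occurs_two hσ h' (h'.trans hab)

end Pool.Agent.Results.MP_65fb70_co.SumBounds
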